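import Pool.Agent.H48.WN.Poi

/-!
# [H49 TS GEN] sum minus integral of a smooth function times the difference of two smooth steps

Used for `H67/TS/Lsm` (`h = log`) and `H67/TS/Wsm` (`h = 1/t`). Poisson summation with the `A`-th derivative
(`H48/WN/Poi`), Leibniz and the chain rule.
-/

set_option autoImplicit false

namespace Pool.Agent.H49.TS

open Finset MeasureTheory

private theorem norm_iter {f : ℝ → ℝ} {n : ℕ} {t : ℝ} (hf : ContDiffAt ℝ n f t) :
    ‖iteratedDeriv n (fun s => ((f s : ℝ) : ℂ)) t‖ = ‖iteratedDeriv n f t‖ := by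
  rw [← norm_iteratedFDeriv_eq_norm_iteratedDeriv, ← norm_iteratedFDeriv_eq_norm_iteratedDeriv]
  exact LinearIsometry.norm_iteratedFDeriv_comp_left (n := n) Complex.ofRealLI hf le_rfl

private theorem st_deriv_supp : HasCompactSupport (deriv Real.smoothTransition) := by
  refine HasCompactSupport.intro (isCompact_Icc (a := (0 : ℝ)) (b := 1)) fun t ht => ?_
  rw [Set.mem_Icc, not_and_or, not_le, not_le] at ht
  rcases ht with h | h
  · have h1 : Real.smoothTransition =ᶠ[nhds t] fun _ => (0 : ℝ) := by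
      filter_upwards [Iio_mem_nhds h] with y hy
      exact Real.smoothTransition.zero_of_nonpos (le_of_lt hy)
    rw [h1.deriv_eq, deriv_const]
  · have h1 : Real.smoothTransition =ᶠ[nhds t] fun _ => (1 : ℝ) := by
      filter_upwards [Ioi_mem_nhds h] with y hy
      exact Real.smoothTransition.one_of_one_le (le_of_lt hy)
    rw [h1.deriv_eq, deriv_const]

private theorem supp_iter {g : ℝ → ℝ} (hc : HasCompactSupport g) (n : ℕ) :
    HasCompactSupport (iteratedDeriv n g) := by
  have h2 : HasCompactSupport (iteratedFDeriv ℝ n g) := hc.iteratedFDeriv n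
  exact h2.comp_left (g := fun F : ContinuousMultilinearMap ℝ (fun _ : Fin n => ℝ) ℝ =>
    F fun _ => (1 : ℝ)) rfl

private theorem st_smooth : ContDiff ℝ (⊤ : ℕ∞) Real.smoothTransition := Real.smoothTransition.contDiff

private theorem st_bd_one (j : ℕ) : ∃ C : ℝ, ∀ t, ‖iteratedDeriv j Real.smoothTransition t‖ ≤ C := by
  rcases j with _ | i
  · refine ⟨1, fun t => ?_⟩
    rw [iteratedDeriv_zero, Real.norm_eq_abs, abs_of_nonneg (Real.smoothTransition.nonneg t)]
    exact Real.smoothTransition.le_one t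
  · have h1 : HasCompactSupport (iteratedDeriv (i + 1) Real.smoothTransition) := by
      rw [iteratedDeriv_succ']
      exact supp_iter st_deriv_supp i
    have h2 : Continuous (iteratedDeriv (i + 1) Real.smoothTransition) :=
      st_smooth.continuous_iteratedDeriv (i + 1) (by exact_mod_cast le_top)
    exact h2.bounded_above_of_compact_support h1

private theorem st_bd (A : ℕ) : ∃ C : ℝ, 1 ≤ C ∧ ∀ j ≤ A, ∀ t,
    ‖iteratedDeriv j Real.smoothTransition t‖ ≤ C := by
  choose c hc using st_bd_one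
  refine ⟨1 + ∑ j ∈ range (A + 1), |c j|, ?_, fun j hj t => ?_⟩
  · have : 0 ≤ ∑ j ∈ range (A + 1), |c j| := sum_nonneg fun _ _ => abs_nonneg _
    linarith
  · have h1 : |c j| ≤ ∑ j ∈ range (A + 1), |c j| :=
      single_le_sum (f := fun j => |c j|) (fun _ _ => abs_nonneg _) (mem_range.2 (by omega))
    have h2 := hc j t
    have h3 := le_abs_self (c j)
    linarith

private theorem aff_iter (a b : ℝ) (j : ℕ) (t : ℝ) :
    iteratedDeriv j (fun t => Real.smoothTransition (a * t + b)) t =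
      a ^ j • iteratedDeriv j Real.smoothTransition (a * t + b) := by
  have h1 : ContDiff ℝ j (fun t => Real.smoothTransition (t + b)) := by
    have := st_smooth.comp (contDiff_id.add (contDiff_const (c := b)) :
      ContDiff ℝ (⊤ : ℕ∞) fun t : ℝ => t + b)
    exact this.of_le (by exact_mod_cast le_top)
  have h2 := iteratedDeriv_comp_const_smul h1 a
  have h3 := congrFun h2 t
  rw [h3, iteratedDeriv_comp_add_const]

private theorem aff_contDiff (a b : ℝ) :
    ContDiff ℝ (⊤ : ℕ∞) (fun t => Real.smoothTransition (a * t + b)) :=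
  st_smooth.comp ((contDiff_const.mul contDiff_id).add contDiff_const)

private theorem aff_bd {A : ℕ} {C : ℝ} (hC : ∀ j ≤ A, ∀ t, ‖iteratedDeriv j Real.smoothTransition t‖ ≤ C)
    (hC1 : 1 ≤ C) {a b B : ℝ} (ha : 0 ≤ a) (haB : a ≤ B) (j : ℕ) (hj : j ≤ A) (t : ℝ) :
    ‖iteratedDeriv j (fun t => Real.smoothTransition (a * t + b)) t‖ ≤ C * B ^ j := by
  rw [aff_iter, norm_smul, norm_pow, Real.norm_eq_abs, abs_of_nonneg ha, mul_comm]
  exact mul_le_mul (hC j hj _) (pow_le_pow_left₀ ha haB j) (pow_nonneg ha j) (by linarith)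

private theorem int_bd {g : ℝ → ℂ} {A : ℕ} {a b C : ℝ} (hab : a ≤ b)
    (hC : ∀ t ∈ Set.Icc a b, ‖iteratedDeriv A g t‖ ≤ C)
    (hs : ∀ t, t ∉ Set.Icc a b → g t = 0) : ∫ t, ‖iteratedDeriv A g t‖ ≤ C * (b - a) := by
  have h1 : ∀ t, t ∉ Set.Icc a b → ‖iteratedDeriv A g t‖ = 0 := by
    intro t ht
    have h2 : g =ᶠ[nhds t] fun _ => (0 : ℂ) := by
      filter_upwards [isClosed_Icc.isOpen_compl.mem_nhds (show t ∈ (Set.Icc a b)ᶜ from ht)] with y hy
      exact hs y hy
    rw [h2.iteratedDeriv_eq A]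
    simp
  rw [← MeasureTheory.setIntegral_eq_integral_of_forall_compl_eq_zero h1]
  have h3 := MeasureTheory.norm_setIntegral_le_of_norm_le_const (μ := MeasureTheory.volume)
    (s := Set.Icc a b) (f := fun t => ‖iteratedDeriv A g t‖) (C := C) (by simp) (fun t ht => by
      rw [norm_norm]; exact hC t ht)
  refine (le_abs_self _).trans ?_
  rw [← Real.norm_eq_abs]
  refine h3.trans (le_of_eq ?_)
  rw [MeasureTheory.Measure.real, Real.volume_Icc, ENNReal.toReal_ofReal (by linarith)]

theorem gen (A : ℕ) (hA : 2 ≤ A) : ∃ C : ℝ, 1 ≤ C ∧ ∀ (h : ℝ → ℝ) (a b B D c d c' e : ℝ), 0 < a → a ≤ b →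
    0 ≤ c → c ≤ B → 0 ≤ c' → c' ≤ B → 0 ≤ D →
    (∀ t, a ≤ t → ContDiffAt ℝ (⊤ : ℕ∞) h t) →
    (∀ i ≤ A, ∀ t ∈ Set.Icc a b, |iteratedDeriv i h t| ≤ D * B ^ i) →
    (∀ t, t ∉ Set.Icc a b → Real.smoothTransition (c * t + d) - Real.smoothTransition (c' * t + e) = 0) →
    |(∑ N ∈ Icc 1 ⌊b⌋₊, h N * (Real.smoothTransition (c * N + d) - Real.smoothTransition (c' * N + e))) -
      ∫ v in a..b, h v * (Real.smoothTransition (c * v + d) - Real.smoothTransition (c' * v + e))| ≤
      C * D * (2 * B) ^ A * (b - a) := by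
  obtain ⟨C, hC1, hC⟩ := st_bd A
  refine ⟨2 * C, by linarith, fun h a b B D c d c' e ha hab hc hcB hc' hcB' hD hh hhb hs => ?_⟩
  have hB : 0 ≤ B := hc.trans hcB
  obtain ⟨K, hK⟩ : ∃ K : ℝ → ℝ, K = fun t => Real.smoothTransition (c * t + d) -
      Real.smoothTransition (c' * t + e) := ⟨_, rfl⟩
  have hK' : ∀ t, Real.smoothTransition (c * t + d) - Real.smoothTransition (c' * t + e) = K t := by
    intro t
    rw [hK]
  simp only [hK'] at hs ⊢
  have hKc : ContDiff ℝ (⊤ : ℕ∞) K := by
    rw [hK]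
    exact (aff_contDiff c d).sub (aff_contDiff c' e)
  obtain ⟨f, hf⟩ : ∃ f : ℝ → ℝ, f = fun t => h t * K t := ⟨_, rfl⟩
  have hfs : ∀ t, t ∉ Set.Icc a b → f t = 0 := by
    intro t ht
    rw [hf]
    simp only
    rw [hs t ht, mul_zero]
  have hfc : ContDiff ℝ (⊤ : ℕ∞) f := by
    rw [contDiff_iff_contDiffAt]
    intro t
    by_cases ht : a ≤ t
    · rw [hf]
      exact (hh t ht).mul hKc.contDiffAt
    · have h2 : f =ᶠ[nhds t] fun _ => (0 : ℝ) := by
        filter_upwards [Iio_mem_nhds (not_le.1 ht)] with y hy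
        exact hfs y (fun h3 => absurd h3.1 (not_le.2 hy))
      exact contDiffAt_const.congr_of_eventuallyEq h2
  -- Leibniz
  have hL : ∀ t ∈ Set.Icc a b, ‖iteratedDeriv A (fun s => ((f s : ℝ) : ℂ)) t‖ ≤ 2 * C * D * (2 * B) ^ A := by
    intro t ht
    rw [norm_iter ((hfc.of_le (by exact_mod_cast le_top)).contDiffAt)]
    have h1 : ContDiffAt ℝ A h t := (hh t ht.1).of_le (by exact_mod_cast le_top)
    have h2 : ContDiffAt ℝ A K t := (hKc.of_le (by exact_mod_cast le_top)).contDiffAt
    have h4 : iteratedDeriv A f t =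
        ∑ i ∈ range (A + 1), (A.choose i : ℝ) * iteratedDeriv i h t * iteratedDeriv (A - i) K t := by
      rw [hf]
      exact iteratedDeriv_mul (f := h) (g := K) h1 h2
    rw [h4]
    refine (norm_sum_le _ _).trans ?_
    have h5 : ∀ i ∈ range (A + 1), ‖(A.choose i : ℝ) * iteratedDeriv i h t * iteratedDeriv (A - i) K t‖ ≤
        (A.choose i : ℝ) * (2 * C * D * B ^ A) := by
      intro i hi
      have hi' : i ≤ A := by have := mem_range.1 hi; omega
      rw [norm_mul, norm_mul, Real.norm_eq_abs, Real.norm_eq_abs, Real.norm_eq_abs,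
        abs_of_nonneg (Nat.cast_nonneg (A.choose i))]
      have h6 := hhb i hi' t ht
      have h70 : ∀ k : ℕ, iteratedDeriv k K t = iteratedDeriv k (fun t => Real.smoothTransition (c * t + d)) t -
          iteratedDeriv k (fun t => Real.smoothTransition (c' * t + e)) t := by
        intro k
        rw [hK]
        exact iteratedDeriv_sub (f := fun t => Real.smoothTransition (c * t + d))
          (g := fun t => Real.smoothTransition (c' * t + e))
          ((aff_contDiff c d).of_le (by exact_mod_cast le_top)).contDiffAt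
          ((aff_contDiff c' e).of_le (by exact_mod_cast le_top)).contDiffAt
      have h7 := h70 (A - i)
      have h8 := aff_bd hC hC1 (b := d) hc hcB (A - i) (by omega) t
      have h9 := aff_bd hC hC1 (b := e) hc' hcB' (A - i) (by omega) t
      have h10 : |iteratedDeriv (A - i) K t| ≤ 2 * (C * B ^ (A - i)) := by
        rw [h7, ← Real.norm_eq_abs]
        exact (norm_sub_le _ _).trans (by linarith)
      have h11 : B ^ A = B ^ i * B ^ (A - i) := by rw [← pow_add]; congr 1; omega
      rw [mul_assoc]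
      refine mul_le_mul_of_nonneg_left ?_ (Nat.cast_nonneg _)
      calc _ ≤ (D * B ^ i) * (2 * (C * B ^ (A - i))) :=
            mul_le_mul h6 h10 (abs_nonneg _) (by positivity)
        _ = 2 * C * D * B ^ A := by rw [h11]; ring
    refine (sum_le_sum h5).trans (le_of_eq ?_)
    rw [← sum_mul]
    have h6 : ∑ i ∈ range (A + 1), (A.choose i : ℝ) = 2 ^ A := by
      exact_mod_cast Nat.sum_range_choose A
    rw [h6, mul_pow]
    ring
  have hgc : ContDiff ℝ (⊤ : ℕ∞) (fun s => ((f s : ℝ) : ℂ)) := Complex.ofRealCLM.contDiff.comp hfc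
  have hgs : ∀ t, t ∉ Set.Icc a b → ((f t : ℝ) : ℂ) = 0 := by
    intro t ht
    rw [hfs t ht]
    simp
  have hsc : HasCompactSupport (fun s => ((f s : ℝ) : ℂ)) := HasCompactSupport.intro isCompact_Icc hgs
  have hP := Pool.Agent.H48.WN.poi (fun s => ((f s : ℝ) : ℂ)) hgc hsc A hA
  have hI := int_bd (g := fun s => ((f s : ℝ) : ℂ)) (A := A) hab hL hgs
  have hsum : (∑' m : ℤ, ((f (m : ℝ) : ℝ) : ℂ)) = ((∑ N ∈ Icc 1 ⌊b⌋₊, h N * K N : ℝ) : ℂ) := by
    have h1 : (∑' m : ℤ, ((f (m : ℝ) : ℝ) : ℂ)) =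
        ∑ m ∈ (Icc 1 ⌊b⌋₊).map Nat.castEmbedding, ((f ((m : ℤ) : ℝ) : ℝ) : ℂ) := by
      refine tsum_eq_sum fun m hm => ?_
      apply hgs
      intro h2
      rcases le_or_gt m 0 with h0 | h0
      · have h3 : ((m : ℤ) : ℝ) ≤ 0 := by exact_mod_cast h0
        linarith [h2.1]
      · obtain ⟨k, rfl⟩ := Int.eq_ofNat_of_zero_le h0.le
        apply hm
        rw [mem_map]
        refine ⟨k, mem_Icc.2 ⟨by exact_mod_cast h0, ?_⟩, rfl⟩
        refine Nat.le_floor ?_
        have h3 := h2.2
        exact_mod_cast h3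
    rw [h1, sum_map, Complex.ofReal_sum]
    refine sum_congr rfl fun m _ => ?_
    have h6 : ((Nat.castEmbedding m : ℤ) : ℝ) = (m : ℝ) := by
      simp
    rw [h6, hf]
  have hint : ∫ t, ((f t : ℝ) : ℂ) = ((∫ v in a..b, h v * K v : ℝ) : ℂ) := by
    have h1 : Function.support f ⊆ Set.Icc a b := by
      intro v hv
      by_contra h2
      exact hv (hfs v h2)
    rw [integral_complex_ofReal]
    congr 1
    rw [intervalIntegral.integral_of_le hab, ← integral_Icc_eq_integral_Ioc]
    rw [show (fun v => h v * K v) = f from hf.symm]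
    exact (setIntegral_eq_integral_of_forall_compl_eq_zero hfs).symm
  rw [hsum, hint, ← Complex.ofReal_sub, Complex.norm_real, Real.norm_eq_abs] at hP
  exact hP.trans hI

end Pool.Agent.H49.TS
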